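import Pool.Agent.Helper55.TM.Basic

/-! Module IH for MP_fc8395_an: implicit smoothness. -/

open scoped ContDiff Topology
open Filter Set

namespace TM

private lemma lin_apply (L : ℝ × ℝ →L[ℝ] ℝ) (v : ℝ × ℝ) :
    L v = v.1 * L (1, 0) + v.2 * L (0, 1) := by
  have : v = v.1 • ((1 : ℝ), (0 : ℝ)) + v.2 • ((0 : ℝ), (1 : ℝ)) := by
    ext <;> simp
  conv_lhs => rw [this]
  rw [map_add, map_smul, map_smul, smul_eq_mul, smul_eq_mul]

/-- the linear isomorphism `(x, t) ↦ (x, L (x, t))` -/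
private noncomputable def shearEquiv (L : ℝ × ℝ →L[ℝ] ℝ) (hL : L (0, 1) ≠ 0) :
    (ℝ × ℝ) ≃L[ℝ] (ℝ × ℝ) :=
  ContinuousLinearEquiv.equivOfInverse ((ContinuousLinearMap.fst ℝ ℝ ℝ).prod L)
    ((ContinuousLinearMap.fst ℝ ℝ ℝ).prod
      ((L (0, 1))⁻¹ • (ContinuousLinearMap.snd ℝ ℝ ℝ - L (1, 0) • ContinuousLinearMap.fst ℝ ℝ ℝ)))
    (by
      intro v
      ext
      · simp
      · simp only [ContinuousLinearMap.prod_apply, ContinuousLinearMap.coe_fst',
          ContinuousLinearMap.smul_apply, ContinuousLinearMap.sub_apply,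
          ContinuousLinearMap.coe_snd', smul_eq_mul]
        rw [lin_apply L v]
        field_simp
        ring)
    (by
      intro v
      ext
      · simp
      · simp only [ContinuousLinearMap.prod_apply, ContinuousLinearMap.coe_fst',
          ContinuousLinearMap.smul_apply, ContinuousLinearMap.sub_apply,
          ContinuousLinearMap.coe_snd', smul_eq_mul]
        rw [lin_apply L]
        field_simp
        ring)

theorem implicit_smooth {G : ℝ × ℝ → ℝ} {O : Set (ℝ × ℝ)} (hO : IsOpen O)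
    (hG : ContDiffOn ℝ ∞ G O) {a b : ℝ} {h : ℝ → ℝ} (hh : ContinuousOn h (Ioo a b))
    (hmem : ∀ x ∈ Ioo a b, (x, h x) ∈ O) (hne : ∀ x ∈ Ioo a b, dt G (x, h x) ≠ 0)
    (hu : ContDiffOn ℝ ∞ (fun x => G (x, h x)) (Ioo a b)) : ContDiffOn ℝ ∞ h (Ioo a b) := by
  intro x hx
  have hGx : ContDiffAt ℝ ∞ G (x, h x) := hG.contDiffAt (hO.mem_nhds (hmem x hx))
  have hux : ContDiffAt ℝ ∞ (fun x => G (x, h x)) x := hu.contDiffAt (isOpen_Ioo.mem_nhds hx)
  have hhx : ContinuousAt h x := hh.continuousAt (isOpen_Ioo.mem_nhds hx)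
  have hn : (∞ : WithTop ℕ∞) ≠ 0 := by simp
  set F : ℝ × ℝ → ℝ × ℝ := fun q => (q.1, G q) with hF
  have hFc : ContDiffAt ℝ ∞ F (x, h x) := contDiffAt_fst.prodMk hGx
  have hdG : HasFDerivAt G (fderiv ℝ G (x, h x)) (x, h x) :=
    (hGx.differentiableAt hn).hasFDerivAt
  have hdF : HasFDerivAt F ((shearEquiv (fderiv ℝ G (x, h x)) (hne x hx) :
      (ℝ × ℝ) ≃L[ℝ] (ℝ × ℝ)) : (ℝ × ℝ) →L[ℝ] (ℝ × ℝ)) (x, h x) := by
    have := (hasFDerivAt_fst (𝕜 := ℝ) (E := ℝ) (F := ℝ) (p := (x, h x))).prodMk hdG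
    exact this
  have hinv := hFc.to_localInverse hdF hn
  have hleft := (hFc.hasStrictFDerivAt' hdF hn).eventually_left_inverse
  have hcurve : ContinuousAt (fun y => (y, h y)) x := continuousAt_id.prodMk hhx
  have hev : ∀ᶠ y in 𝓝 x, (hFc.localInverse hdF hn (F (y, h y))) = (y, h y) :=
    hcurve.eventually hleft
  have hcomp : ContDiffAt ℝ ∞ (fun y => (hFc.localInverse hdF hn (y, G (y, h y))).2) x := by
    have h1 : ContDiffAt ℝ ∞ (fun y : ℝ => (y, G (y, h y))) x := contDiffAt_id.prodMk hux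
    have h2 : ContDiffAt ℝ ∞ (hFc.localInverse hdF hn) ((fun y : ℝ => (y, G (y, h y))) x) := hinv
    exact contDiffAt_snd.comp x (h2.comp x h1)
  refine (hcomp.congr_of_eventuallyEq ?_).contDiffWithinAt
  filter_upwards [hev] with y hy
  exact (congrArg Prod.snd hy).symm

end TM
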