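import Pool.Agent.Helper72.BQ.Defs
import Pool.Agent.Helper72.BAM.UK
import Pool.Agent.Helper85.BPM.I2a
import Pool.Agent.Helper85.BPM.K3

/-! Module Q1 of MP_3dd6d4_an (BQ): the K-th power of `|u|²` is bounded by a convolution power. -/

set_option autoImplicit false

open MeasureTheory Complex FourierTransform Filter Topology
open scoped ENNReal NNReal ComplexConjugate

noncomputable section

namespace Helper72.BQ.P

open Helper72.BA Helper85.BP Helper72.BQ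

/-- Parseval for nice functions -/
theorem q1_parseval {a b : ℂ → ℂ} (ha : Nice a) (hb : Nice b) :
    ∫ x, conj (𝓕 a x) * 𝓕 b x = ∫ z, conj (a z) * b z := by
  set A : Lp ℂ 2 (volume : Measure ℂ) := (Helper72.BA.P.memLp_two_of_nice ha).toLp a with hA
  set B : Lp ℂ 2 (volume : Measure ℂ) := (Helper72.BA.P.memLp_two_of_nice hb).toLp b with hB
  have h1 : inner ℂ (𝓕 A) (𝓕 B) = inner ℂ A B := Lp.inner_fourier_eq A B
  rw [L2.inner_def, L2.inner_def] at h1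
  have h2 : ∫ x, inner ℂ ((𝓕 A : Lp ℂ 2 (volume : Measure ℂ)) x)
      ((𝓕 B : Lp ℂ 2 (volume : Measure ℂ)) x) = ∫ x, conj (𝓕 a x) * 𝓕 b x := by
    apply integral_congr_ae
    filter_upwards [Helper72.BA.P.fourier_toLp_ae ha, Helper72.BA.P.fourier_toLp_ae hb] with x h3 h4
    rw [h3, h4, RCLike.inner_apply, mul_comm]
  have h3 : ∫ x, inner ℂ (A x) (B x) = ∫ x, conj (a x) * b x := by
    apply integral_congr_ae
    filter_upwards [(Helper72.BA.P.memLp_two_of_nice ha).coeFn_toLp,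
      (Helper72.BA.P.memLp_two_of_nice hb).coeFn_toLp] with x h3 h4
    rw [h3, h4, RCLike.inner_apply, mul_comm]
  rw [← h2, h1, h3]

/-- translation of a nice function -/
theorem q1_nice_shift {a : ℂ → ℂ} (ha : Nice a) (ζ : ℂ) : Nice (fun z => a (z - ζ)) := by
  obtain ⟨C, hC⟩ := ha.bdd
  exact ⟨ha.meas.comp (measurable_id.sub_const ζ), ha.int.comp_sub_right ζ, C, fun z => hC _⟩

theorem q1_fourier_shift (a : ℂ → ℂ) (ζ x : ℂ) :
    𝓕 (fun z => a (z - ζ)) x = (𝐞 (-(inner ℝ ζ x)) : ℂ) * 𝓕 a x := by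
  rw [Real.fourier_eq, Real.fourier_eq]
  have h1 := integral_add_right_eq_self (μ := (volume : Measure ℂ))
    (fun v => 𝐞 (-inner ℝ v x) • a (v - ζ)) ζ
  rw [← h1, ← integral_const_mul]
  apply integral_congr_ae (ae_of_all _ fun z => ?_)
  show 𝐞 (-inner ℝ (z + ζ) x) • a (z + ζ - ζ) = (𝐞 (-(inner ℝ ζ x)) : ℂ) * (𝐞 (-inner ℝ z x) • a z)
  rw [inner_add_left, neg_add, AddChar.map_add_eq_mul, add_sub_cancel_right, Circle.smul_def,
    Circle.smul_def, Circle.coe_mul, smul_eq_mul, smul_eq_mul]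
  ring

section main

variable {Y : Type*} [MeasurableSpace Y] (ν : Measure Y) [IsFiniteMeasure ν]
    (U : ℂ → Y → ℂ) (hU : Measurable (Function.uncurry U)) (C : ℝ) (hb : ∀ ξ y, ‖U ξ y‖ ≤ C)
    (R0 : ℝ) (hs : ∀ ξ y, R0 < ‖ξ‖ → U ξ y = 0)

/-- dominating function -/
def q1B (C R0 : ℝ) : ℂ → ℝ := (Metric.closedBall (0:ℂ) R0).indicator (fun _ => |C|)

theorem q1B_int (C R0 : ℝ) : Integrable (q1B C R0) := by
  unfold q1B
  rw [integrable_indicator_iff Metric.isClosed_closedBall.measurableSet]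
  exact integrableOn_const (by exact measure_closedBall_lt_top.ne)

include hb hs in
theorem q1_le_B (ξ : ℂ) (y : Y) : ‖U ξ y‖ ≤ q1B C R0 ξ := by
  unfold q1B
  by_cases hξ : ξ ∈ Metric.closedBall (0:ℂ) R0
  · rw [Set.indicator_of_mem hξ]
    exact (hb ξ y).trans (le_abs_self C)
  · rw [Set.indicator_of_notMem hξ, hs ξ y, norm_zero]
    simpa using hξ

include hU hb hs in
theorem q1_nice (y : Y) : Nice (fun ξ => U ξ y) := by
  have hm : Measurable (fun ξ => U ξ y) := hU.comp (measurable_id.prodMk measurable_const)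
  exact ⟨hm, (q1B_int C R0).mono' hm.aestronglyMeasurable
    (ae_of_all _ fun ξ => q1_le_B U C hb R0 hs ξ y), C, fun ξ => hb ξ y⟩

include hU in
theorem q1_meas : Measurable (fun p : ℂ × Y => 𝓕 (fun ξ => U ξ p.2) p.1) := by
  have h1 : Measurable (fun p : (ℂ × Y) × ℂ => (𝐞 (-inner ℝ p.2 p.1.1) : ℂ) * U p.2 p.1.2) := by
    apply Measurable.mul
    · have h3 : Measurable fun p : (ℂ × Y) × ℂ => (-inner ℝ p.2 p.1.1 : ℝ) := by
        exact (measurable_snd.inner (𝕜 := ℝ) measurable_fst.fst).neg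
      have h4 : Continuous (fun r : ℝ => (𝐞 r : ℂ)) :=
        continuous_subtype_val.comp Real.continuous_fourierChar
      exact h4.measurable.comp h3
    · exact hU.comp (measurable_snd.prodMk measurable_fst.snd)
  have h2 := (h1.stronglyMeasurable.integral_prod_right' (ν := (volume : Measure ℂ))).measurable
  have h3 : (fun p : ℂ × Y => 𝓕 (fun ξ => U ξ p.2) p.1) = fun p : ℂ × Y =>
      ∫ ξ : ℂ, (𝐞 (-inner ℝ ξ p.1) : ℂ) * U ξ p.2 := by
    funext p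
    rw [Real.fourier_eq]
    rfl
  rw [h3]
  exact h2

include hb hs in
theorem q1_fourier_bdd (y : Y) (x : ℂ) : ‖𝓕 (fun ξ => U ξ y) x‖ ≤ ∫ ξ, q1B C R0 ξ := by
  rw [Real.fourier_eq]
  refine norm_integral_le_of_norm_le (q1B_int C R0) (ae_of_all _ fun ξ => ?_)
  rw [Circle.norm_smul]
  exact q1_le_B U C hb R0 hs ξ y

/-- `∫ |û_y(x)|² dν(y)` -/
def q1G (x : ℂ) : ℂ := ∫ y, conj (𝓕 (fun ξ => U ξ y) x) * 𝓕 (fun ξ => U ξ y) x ∂ν

/-- the correlation -/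
def q1R (ζ ξ : ℂ) : ℂ := ∫ y, conj (U ξ y) * U (ξ - ζ) y ∂ν

include hU in
theorem q1_meas_sq : Measurable (fun p : ℂ × Y =>
    conj (𝓕 (fun ξ => U ξ p.2) p.1) * 𝓕 (fun ξ => U ξ p.2) p.1) := by
  have h := q1_meas U hU
  have h2 := Complex.continuous_conj.measurable.comp h
  exact h2.mul h

theorem q1_gen_int (f : Y → ℂ) (hf : Measurable f) (M : ℝ) (hM : ∀ y, ‖f y‖ ≤ M) :
    Integrable (fun y => conj (f y) * f y) ν := by
  have hm : Measurable (fun y => conj (f y) * f y) :=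
    (Complex.continuous_conj.measurable.comp hf).mul hf
  refine Integrable.mono' (integrable_const (M * M)) hm.aestronglyMeasurable
    (ae_of_all _ fun y => ?_)
  rw [norm_mul, RCLike.norm_conj]
  exact mul_le_mul (hM y) (hM y) (norm_nonneg _) ((norm_nonneg _).trans (hM y))

include hU in
theorem q1_meas_slice (x : ℂ) : Measurable (fun y => 𝓕 (fun ξ => U ξ y) x) := by
  have hx : Measurable (fun y : Y => (x, y)) := measurable_prodMk_left
  have hm := (q1_meas U hU).comp hx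
  simpa only [Function.comp_def] using hm

include hU hb hs in
theorem q1_int_slice (x : ℂ) :
    Integrable (fun y => conj (𝓕 (fun ξ => U ξ y) x) * 𝓕 (fun ξ => U ξ y) x) ν := by
  have hm := q1_meas_slice U hU x
  have hh := fun y => q1_fourier_bdd U C hb R0 hs y x
  exact q1_gen_int ν (fun y => 𝓕 (fun ξ => U ξ y) x) hm (∫ ξ, q1B C R0 ξ) hh

/-- `G` is a nonnegative real number equal to the lower integral -/
theorem q1G_eq (hU : Measurable (Function.uncurry U)) (hb : ∀ ξ y, ‖U ξ y‖ ≤ C)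
    (hs : ∀ ξ y, R0 < ‖ξ‖ → U ξ y = 0) (x : ℂ) : ∃ g : ℝ, 0 ≤ g ∧ q1G ν U x = g ∧
    ∫⁻ y, ‖𝓕 (fun ξ => U ξ y) x‖ₑ ^ 2 ∂ν = ENNReal.ofReal g := by
  refine ⟨∫ y, ‖𝓕 (fun ξ => U ξ y) x‖ ^ 2 ∂ν, integral_nonneg fun y => by positivity, ?_, ?_⟩
  · unfold q1G
    rw [← integral_complex_ofReal]
    apply integral_congr_ae (ae_of_all _ fun y => ?_)
    show conj (𝓕 (fun ξ => U ξ y) x) * 𝓕 (fun ξ => U ξ y) x = _
    rw [mul_comm, Complex.mul_conj, Complex.normSq_eq_norm_sq]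
  · have hi := (q1_int_slice ν U hU C hb R0 hs x).norm
    have hi2 : Integrable (fun y => ‖𝓕 (fun ξ => U ξ y) x‖ ^ 2) ν := by
      refine hi.congr (ae_of_all _ fun y => ?_)
      show ‖conj (𝓕 (fun ξ => U ξ y) x) * 𝓕 (fun ξ => U ξ y) x‖ = ‖𝓕 (fun ξ => U ξ y) x‖ ^ 2
      rw [norm_mul, RCLike.norm_conj, sq]
    rw [ofReal_integral_eq_lintegral_ofReal hi2 (ae_of_all _ fun y => by positivity)]
    apply lintegral_congr fun y => ?_
    rw [ENNReal.ofReal_pow (norm_nonneg _), ofReal_norm]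

include hU hb hs in
theorem q1_int_prod : Integrable (fun p : ℂ × Y =>
    conj (𝓕 (fun ξ => U ξ p.2) p.1) * 𝓕 (fun ξ => U ξ p.2) p.1) (volume.prod ν) := by
  refine ⟨(q1_meas_sq U hU).aestronglyMeasurable, ?_⟩
  rw [HasFiniteIntegral, lintegral_prod_symm _ (q1_meas_sq U hU).enorm.aemeasurable]
  have h1 : ∀ y, ∫⁻ x, ‖conj (𝓕 (fun ξ => U ξ y) x) * 𝓕 (fun ξ => U ξ y) x‖ₑ ≤
      ENNReal.ofReal (|C| * ∫ ξ, q1B C R0 ξ) := by
    intro y
    have h2 : ∫⁻ x, ‖conj (𝓕 (fun ξ => U ξ y) x) * 𝓕 (fun ξ => U ξ y) x‖ₑ =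
        ∫⁻ x, ‖𝓕 (fun ξ => U ξ y) x‖ₑ ^ 2 := by
      apply lintegral_congr fun x => ?_
      rw [enorm_mul, RCLike.enorm_conj, sq]
    rw [h2, Helper72.BA.plancherel (q1_nice U hU C hb R0 hs y)]
    have h3 : Integrable (fun ξ => |C| * q1B C R0 ξ) := (q1B_int C R0).const_mul _
    have h4 : ∀ ξ, 0 ≤ q1B C R0 ξ := fun ξ =>
      (norm_nonneg _).trans (q1_le_B U C hb R0 hs ξ y)
    rw [← integral_const_mul, ofReal_integral_eq_lintegral_ofReal h3
      (ae_of_all _ fun ξ => mul_nonneg (abs_nonneg _) (h4 ξ))]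
    apply lintegral_mono fun ξ => ?_
    show ‖U ξ y‖ₑ ^ 2 ≤ _
    rw [← ofReal_norm, ← ENNReal.ofReal_pow (norm_nonneg _), sq]
    apply ENNReal.ofReal_le_ofReal
    exact mul_le_mul ((hb ξ y).trans (le_abs_self C)) (q1_le_B U C hb R0 hs ξ y) (norm_nonneg _)
      (abs_nonneg _)
  refine (lintegral_mono h1).trans_lt ?_
  rw [lintegral_const]
  exact ENNReal.mul_lt_top ENNReal.ofReal_lt_top (measure_lt_top ν _)

theorem q1G_nice (hU : Measurable (Function.uncurry U)) (hb : ∀ ξ y, ‖U ξ y‖ ≤ C)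
    (hs : ∀ ξ y, R0 < ‖ξ‖ → U ξ y = 0) : Nice (q1G ν U) := by
  refine ⟨?_, ?_, ((∫ ξ, q1B C R0 ξ) * ∫ ξ, q1B C R0 ξ) * ν.real Set.univ, fun x => ?_⟩
  · exact ((q1_meas_sq U hU).stronglyMeasurable.integral_prod_right' (ν := ν)).measurable
  · exact (q1_int_prod ν U hU C hb R0 hs).integral_prod_left
  · unfold q1G
    refine norm_integral_le_of_norm_le_const (ae_of_all _ fun y => ?_)
    rw [norm_mul, RCLike.norm_conj]
    have h := q1_fourier_bdd U C hb R0 hs y x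
    exact mul_le_mul h h (norm_nonneg _) ((norm_nonneg _).trans h)

theorem q1G_cont (hU : Measurable (Function.uncurry U)) (hb : ∀ ξ y, ‖U ξ y‖ ≤ C)
    (hs : ∀ ξ y, R0 < ‖ξ‖ → U ξ y = 0) : Continuous (q1G ν U) := by
  unfold q1G
  refine continuous_of_dominated (bound := fun _ => (∫ ξ, q1B C R0 ξ) * ∫ ξ, q1B C R0 ξ)
    (fun x => ?_) (fun x => ae_of_all _ fun y => ?_) (integrable_const _) (ae_of_all _ fun y => ?_)
  · have hm := q1_meas_slice U hU x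
    exact ((Complex.continuous_conj.measurable.comp hm).mul hm).aestronglyMeasurable
  · rw [norm_mul, RCLike.norm_conj]
    have h := q1_fourier_bdd U C hb R0 hs y x
    exact mul_le_mul h h (norm_nonneg _) ((norm_nonneg _).trans h)
  · have h := Helper72.BA.P.continuous_fourier_of_int (q1_nice U hU C hb R0 hs y).int
    exact (Complex.continuous_conj.comp h).mul h

/-- the Fourier transform of `G` -/
theorem q1G_fourier (hU : Measurable (Function.uncurry U)) (hb : ∀ ξ y, ‖U ξ y‖ ≤ C)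
    (hs : ∀ ξ y, R0 < ‖ξ‖ → U ξ y = 0) (ζ : ℂ) :
    𝓕 (q1G ν U) ζ = ∫ ξ, q1R ν U ζ ξ := by
  have h1 : 𝓕 (q1G ν U) ζ = ∫ x, ∫ y, (𝐞 (-inner ℝ x ζ) : ℂ) *
      (conj (𝓕 (fun ξ => U ξ y) x) * 𝓕 (fun ξ => U ξ y) x) ∂ν := by
    rw [Real.fourier_eq]
    apply integral_congr_ae (ae_of_all _ fun x => ?_)
    show 𝐞 (-inner ℝ x ζ) • q1G ν U x = _
    rw [Circle.smul_def, smul_eq_mul, q1G, ← integral_const_mul]
  have hint : Integrable (fun p : ℂ × Y => (𝐞 (-inner ℝ p.1 ζ) : ℂ) *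
      (conj (𝓕 (fun ξ => U ξ p.2) p.1) * 𝓕 (fun ξ => U ξ p.2) p.1)) (volume.prod ν) := by
    refine (q1_int_prod ν U hU C hb R0 hs).mono ?_ (ae_of_all _ fun p => ?_)
    · refine AEStronglyMeasurable.mul ?_ (q1_meas_sq U hU).aestronglyMeasurable
      have h4 : Continuous (fun r : ℂ => (𝐞 (-inner ℝ r ζ) : ℂ)) := by
        have h5 : Continuous fun r : ℂ => (-inner ℝ r ζ : ℝ) := by fun_prop
        exact continuous_subtype_val.comp (Real.continuous_fourierChar.comp h5)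
      exact (h4.measurable.comp measurable_fst).aestronglyMeasurable
    · rw [norm_mul, Circle.norm_coe, one_mul]
  rw [h1, integral_integral_swap (f := fun x y => (𝐞 (-inner ℝ x ζ) : ℂ) *
      (conj (𝓕 (fun ξ => U ξ y) x) * 𝓕 (fun ξ => U ξ y) x)) hint]
  have h2 : ∀ y, ∫ x, (𝐞 (-inner ℝ x ζ) : ℂ) *
      (conj (𝓕 (fun ξ => U ξ y) x) * 𝓕 (fun ξ => U ξ y) x) =
      ∫ z, conj (U z y) * U (z - ζ) y := by
    intro y
    have hn := q1_nice U hU C hb R0 hs y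
    rw [← q1_parseval hn (q1_nice_shift hn ζ)]
    apply integral_congr_ae (ae_of_all _ fun x => ?_)
    show _ = conj (𝓕 (fun ξ => U ξ y) x) * 𝓕 (fun z => U (z - ζ) y) x
    rw [q1_fourier_shift (fun z => U z y) ζ x, real_inner_comm]
    ring
  simp_rw [h2]
  have hm2 : Measurable (fun p : Y × ℂ => conj (U p.2 p.1) * U (p.2 - ζ) p.1) :=
    (Complex.continuous_conj.measurable.comp (hU.comp (measurable_snd.prodMk measurable_fst))).mul
      (hU.comp ((measurable_snd.sub_const ζ).prodMk measurable_fst))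
  have hint2 : Integrable (fun p : Y × ℂ => conj (U p.2 p.1) * U (p.2 - ζ) p.1) (ν.prod volume) := by
    have hd : Integrable (fun r : Y × ℂ => (1:ℝ) * (|C| * q1B C R0 r.2)) (ν.prod volume) :=
      Integrable.mul_prod (f := fun _ : Y => (1:ℝ)) (integrable_const _)
        ((q1B_int C R0).const_mul _)
    refine hd.mono' hm2.aestronglyMeasurable (ae_of_all _ fun p => ?_)
    rw [norm_mul, RCLike.norm_conj, one_mul, mul_comm]
    exact mul_le_mul ((hb _ _).trans (le_abs_self C)) (q1_le_B U C hb R0 hs _ _) (norm_nonneg _)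
      (abs_nonneg _)
  rw [integral_integral_swap (f := fun y z => conj (U z y) * U (z - ζ) y) hint2]
  rfl

theorem q1_lcp_mono {a b : ℂ → ℝ≥0∞} (h : ∀ z, a z ≤ b z) (j : ℕ) (z : ℂ) :
    lcp a j z ≤ lcp b j z := by
  induction j generalizing z with
  | zero => exact h z
  | succ j ih => exact lintegral_mono fun t => mul_le_mul' (ih t) (h _)

theorem q1_A_fin (hb : ∀ ξ y, ‖U ξ y‖ ≤ C) (hs : ∀ ξ y, R0 < ‖ξ‖ → U ξ y = 0) :
    ∫⁻ ζ, ∫⁻ ξ, ‖q1R ν U ζ ξ‖ₑ < ∞ := by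
  have hBm : Measurable (fun ξ => ENNReal.ofReal (q1B C R0 ξ)) := by
    apply Measurable.ennreal_ofReal
    exact (measurable_const.indicator Metric.isClosed_closedBall.measurableSet)
  have h1 : ∀ ζ ξ, ‖q1R ν U ζ ξ‖ₑ ≤ ENNReal.ofReal (q1B C R0 ξ) *
      ENNReal.ofReal (q1B C R0 (ξ - ζ)) * ν Set.univ := by
    intro ζ ξ
    calc ‖q1R ν U ζ ξ‖ₑ ≤ ∫⁻ y, ‖conj (U ξ y) * U (ξ - ζ) y‖ₑ ∂ν :=
          enorm_integral_le_lintegral_enorm _
      _ ≤ ∫⁻ y, ENNReal.ofReal (q1B C R0 ξ) * ENNReal.ofReal (q1B C R0 (ξ - ζ)) ∂ν := by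
          apply lintegral_mono fun y => ?_
          show ‖conj (U ξ y) * U (ξ - ζ) y‖ₑ ≤ _
          rw [enorm_mul, RCLike.enorm_conj, ← ofReal_norm, ← ofReal_norm]
          exact mul_le_mul' (ENNReal.ofReal_le_ofReal (q1_le_B U C hb R0 hs _ _))
            (ENNReal.ofReal_le_ofReal (q1_le_B U C hb R0 hs _ _))
      _ = _ := by rw [lintegral_const]
  have h2 : ∀ ζ, ∫⁻ ξ, ‖q1R ν U ζ ξ‖ₑ ≤ ∫⁻ ξ, ENNReal.ofReal (q1B C R0 ξ) *
      ENNReal.ofReal (q1B C R0 (ξ - ζ)) * ν Set.univ := fun ζ => lintegral_mono (h1 ζ)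
  have h3 : ∫⁻ ζ, ∫⁻ ξ, ENNReal.ofReal (q1B C R0 ξ) *
      ENNReal.ofReal (q1B C R0 (ξ - ζ)) * ν Set.univ =
      (∫⁻ ξ, ENNReal.ofReal (q1B C R0 ξ)) * (∫⁻ ξ, ENNReal.ofReal (q1B C R0 ξ)) * ν Set.univ := by
    rw [lintegral_lintegral_swap]
    · have h4 : ∀ ξ : ℂ, ∫⁻ ζ, ENNReal.ofReal (q1B C R0 ξ) *
          ENNReal.ofReal (q1B C R0 (ξ - ζ)) * ν Set.univ = ENNReal.ofReal (q1B C R0 ξ) *
          (∫⁻ ζ, ENNReal.ofReal (q1B C R0 ζ)) * ν Set.univ := by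
        intro ξ
        have h5 : Measurable (fun ζ : ℂ => ENNReal.ofReal (q1B C R0 (ξ - ζ))) :=
          hBm.comp (measurable_const.sub measurable_id)
        rw [lintegral_mul_const _ (h5.const_mul _), lintegral_const_mul _ h5,
          lintegral_sub_left_eq_self (fun ζ => ENNReal.ofReal (q1B C R0 ζ)) ξ]
      simp_rw [h4]
      rw [lintegral_mul_const _ (hBm.mul_const _), lintegral_mul_const _ hBm]
    · apply Measurable.aemeasurable
      exact (((hBm.comp measurable_snd).mul (hBm.comp (measurable_snd.sub measurable_fst))).mul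
        measurable_const)
  refine (lintegral_mono h2).trans_lt ?_
  rw [h3]
  have h6 : ∫⁻ ξ, ENNReal.ofReal (q1B C R0 ξ) < ∞ := by
    have h7 := (q1B_int C R0).2
    refine lt_of_le_of_lt (lintegral_mono fun ξ => ?_) h7
    rw [← ofReal_norm]
    exact ENNReal.ofReal_le_ofReal (le_abs_self _)
  exact ENNReal.mul_lt_top (ENNReal.mul_lt_top h6 h6) (measure_lt_top ν _)

theorem q1R_norm (ζ ξ : ℂ) : ‖q1R ν U ζ ξ‖ₑ = ‖∫ y, U ξ y * conj (U (ξ - ζ) y) ∂ν‖ₑ := by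
  have h : q1R ν U ζ ξ = conj (∫ y, U ξ y * conj (U (ξ - ζ) y) ∂ν) := by
    unfold q1R
    rw [← integral_conj]
    congr 1
    funext y
    simp
  rw [h, RCLike.enorm_conj]

end main

theorem sq_le_lcp {Y : Type*} [MeasurableSpace Y] (ν : Measure Y) [IsFiniteMeasure ν] (K : ℕ)
    (hK : 2 ≤ K) (U : ℂ → Y → ℂ) (hU : Measurable (Function.uncurry U))
    (hb : ∃ C : ℝ, ∀ ξ y, ‖U ξ y‖ ≤ C) (R0 : ℝ) (hs : ∀ ξ y, R0 < ‖ξ‖ → U ξ y = 0) :
    ∫⁻ x : ℂ, (∫⁻ y, ‖∫ ξ : ℂ, ch x ξ * U ξ y‖ₑ ^ 2 ∂ν) ^ K ≤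
      lcp (fun ζ => ∫⁻ ξ, ‖∫ y, U ξ y * conj (U (ξ - ζ) y) ∂ν‖ₑ) (K - 1) 0 := by
  obtain ⟨C, hb⟩ := hb
  have e0 : ∀ x y, ∫ ξ : ℂ, ch x ξ * U ξ y = 𝓕 (fun ξ => U ξ y) (-x) := by
    intro x y
    rw [← Real.fourierInv_eq_fourier_neg, Real.fourierInv_eq]
    refine integral_congr_ae (ae_of_all _ fun ξ => ?_)
    show ch x ξ * _ = _
    rw [Helper85.BP.P.ch_eq_char]
    rfl
  have hn := q1G_nice ν U C R0 hU hb hs
  have hc := q1G_cont ν U C R0 hU hb hs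
  have hF := q1G_fourier ν U C R0 hU hb hs
  have hFle : ∀ ζ, ‖𝓕 (q1G ν U) ζ‖ₑ ≤ ∫⁻ ξ, ‖∫ y, U ξ y * conj (U (ξ - ζ) y) ∂ν‖ₑ := by
    intro ζ
    rw [hF ζ]
    refine (enorm_integral_le_lintegral_enorm _).trans (le_of_eq ?_)
    exact lintegral_congr fun ξ => q1R_norm ν U ζ ξ
  have hFi : Integrable (𝓕 (q1G ν U)) := by
    refine ⟨(Helper72.BA.P.continuous_fourier_of_int hn.int).aestronglyMeasurable, ?_⟩
    refine lt_of_le_of_lt (lintegral_mono fun ζ => ?_) (q1_A_fin ν U C R0 hb hs)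
    refine (hFle ζ).trans (le_of_eq ?_)
    exact lintegral_congr fun ξ => (q1R_norm ν U ζ ξ).symm
  obtain ⟨j, rfl⟩ : ∃ j, K = j + 1 := ⟨K - 1, by omega⟩
  have e1 : ∫⁻ x : ℂ, (∫⁻ y, ‖∫ ξ : ℂ, ch x ξ * U ξ y‖ₑ ^ 2 ∂ν) ^ (j + 1) =
      ∫⁻ x : ℂ, (∫⁻ y, ‖𝓕 (fun ξ => U ξ y) x‖ₑ ^ 2 ∂ν) ^ (j + 1) := by
    simp_rw [e0]
    exact lintegral_neg_eq_self (μ := (volume : Measure ℂ))
      (fun x => (∫⁻ y, ‖𝓕 (fun ξ => U ξ y) x‖ₑ ^ 2 ∂ν) ^ (j + 1))
  choose g hg0 hg1 hg2 using q1G_eq ν U C R0 hU hb hs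
  have hgi : Integrable (fun x => g x ^ (j + 1)) := by
    have h1 := (Helper72.BA.P.nice_pow hn j).int.norm
    refine h1.congr (ae_of_all _ fun x => ?_)
    show ‖q1G ν U x ^ (j + 1)‖ = _
    rw [hg1, norm_pow, Complex.norm_real, Real.norm_of_nonneg (hg0 x)]
  have e2 : ∫⁻ x : ℂ, (∫⁻ y, ‖𝓕 (fun ξ => U ξ y) x‖ₑ ^ 2 ∂ν) ^ (j + 1) =
      ‖𝓕 (fun z => q1G ν U z ^ (j + 1)) 0‖ₑ := by
    have h1 : 𝓕 (fun z => q1G ν U z ^ (j + 1)) 0 = ((∫ x, g x ^ (j + 1) : ℝ) : ℂ) := by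
      rw [Real.fourier_eq, ← integral_complex_ofReal]
      apply integral_congr_ae (ae_of_all _ fun x => ?_)
      show 𝐞 (-inner ℝ x 0) • q1G ν U x ^ (j + 1) = _
      rw [inner_zero_right, neg_zero, AddChar.map_zero_eq_one, one_smul, hg1]
      push_cast
      rfl
    rw [h1, ← ofReal_norm, Complex.norm_real, Real.norm_of_nonneg
      (integral_nonneg fun x => pow_nonneg (hg0 x) _),
      ofReal_integral_eq_lintegral_ofReal hgi (ae_of_all _ fun x => pow_nonneg (hg0 x) _)]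
    apply lintegral_congr fun x => ?_
    rw [hg2, ENNReal.ofReal_pow (hg0 x)]
  rw [e1, e2, Nat.add_sub_cancel]
  exact (Helper72.BA.P.fourier_pow_le hn hc hFi j 0).trans (q1_lcp_mono hFle j 0)

end Helper72.BQ.P
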