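import Pool.Agent.Helper85.IW.Statements

set_option autoImplicit false
set_option maxSynthPendingDepth 3

/-! # Line derivatives of heat extensions (module A3) -/

open MeasureTheory Complex Filter Topology
open scoped ENNReal NNReal ComplexConjugate

noncomputable section

namespace Helper85.IW

open Helper72.BA

theorem a3_norm_ch (z ξ : ℂ) : ‖ch z ξ‖ = 1 := by
  unfold ch
  have e : 2 * (Real.pi : ℂ) * I * ((z.re * ξ.re + z.im * ξ.im : ℝ) : ℂ) =
      ((2 * Real.pi * (z.re * ξ.re + z.im * ξ.im) : ℝ) : ℂ) * I := by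
    push_cast; ring
  rw [e, Complex.norm_exp_ofReal_mul_I]

theorem a3_meas_ch (z : ℂ) : Measurable (fun ξ => ch z ξ) := by
  unfold ch
  exact (by fun_prop : Continuous fun ξ : ℂ =>
    Complex.exp (2 * Real.pi * I * (z.re * ξ.re + z.im * ξ.im : ℝ))).measurable

/-- The general line derivative. -/
theorem a3_main (h : StA1) (g : ℂ → ℂ) (hg : Rap g) (t : ℝ) (z v : ℂ) (L : ℂ → ℝ)
    (hL : Continuous L) (hLb : ∀ ξ, |L ξ| ≤ ‖ξ‖) (hLv : ∀ ξ, v.re * ξ.re + v.im * ξ.im = L ξ) :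
    HasLineDerivAt ℝ (HE g t) (HE (fun ξ => (2 * Real.pi * I * L ξ) * g ξ) t z) z v := by
  obtain ⟨hint, hnice, hk⟩ := h.1 g hg
  have hgm : Measurable g := hg.meas
  have hexp : ∀ ξ : ℂ, ‖((Real.exp (-(max t 0) * ‖ξ‖ ^ 2) : ℝ) : ℂ)‖ ≤ 1 := by
    intro ξ
    rw [Complex.norm_real, Real.norm_eq_abs, abs_of_pos (Real.exp_pos _)]
    apply Real.exp_le_one_iff.2
    have := le_max_right t 0
    nlinarith [sq_nonneg ‖ξ‖]
  have hem : Measurable fun ξ : ℂ => ((Real.exp (-(max t 0) * ‖ξ‖ ^ 2) : ℝ) : ℂ) := by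
    exact (by fun_prop : Continuous fun ξ : ℂ =>
      ((Real.exp (-(max t 0) * ‖ξ‖ ^ 2) : ℝ) : ℂ)).measurable
  let F : ℝ → ℂ → ℂ := fun s ξ =>
    ch (z + s • v) ξ * (((Real.exp (-(max t 0) * ‖ξ‖ ^ 2) : ℝ) : ℂ) * g ξ)
  let F' : ℝ → ℂ → ℂ := fun s ξ =>
    ch (z + s • v) ξ * (((Real.exp (-(max t 0) * ‖ξ‖ ^ 2) : ℝ) : ℂ) *
      ((2 * Real.pi * I * L ξ) * g ξ))
  have hFm : ∀ s, Measurable (F s) := fun s => (a3_meas_ch _).mul (hem.mul hgm)
  have hLm : Measurable fun ξ => (2 * (Real.pi : ℂ) * I * (L ξ : ℂ)) :=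
    (measurable_const).mul (Complex.measurable_ofReal.comp hL.measurable)
  have hF'm : ∀ s, Measurable (F' s) := fun s => (a3_meas_ch _).mul (hem.mul (hLm.mul hgm))
  have hFb : ∀ s ξ, ‖F s ξ‖ ≤ ‖g ξ‖ := by
    intro s ξ
    simp only [F]
    rw [norm_mul, a3_norm_ch, one_mul, norm_mul]
    calc _ ≤ 1 * ‖g ξ‖ := mul_le_mul_of_nonneg_right (hexp ξ) (norm_nonneg _)
      _ = ‖g ξ‖ := one_mul _
  have hF'b : ∀ s ξ, ‖F' s ξ‖ ≤ 2 * Real.pi * (‖ξ‖ ^ 1 * ‖g ξ‖) := by
    intro s ξ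
    simp only [F']
    rw [norm_mul, a3_norm_ch, one_mul, norm_mul, norm_mul]
    have e1 : ‖(2 * (Real.pi : ℂ) * I * (L ξ : ℂ))‖ = 2 * Real.pi * |L ξ| := by
      rw [norm_mul, norm_mul, norm_mul, Complex.norm_I, mul_one, Complex.norm_real,
        Complex.norm_real, Real.norm_eq_abs, Real.norm_eq_abs, abs_of_pos Real.pi_pos]
      simp
    rw [e1]
    have h1 : 2 * Real.pi * |L ξ| * ‖g ξ‖ ≤ 2 * Real.pi * (‖ξ‖ ^ 1 * ‖g ξ‖) := by
      rw [pow_one, mul_assoc]
      refine mul_le_mul_of_nonneg_left ?_ (by positivity)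
      exact mul_le_mul_of_nonneg_right (hLb ξ) (norm_nonneg _)
    have h0 : 0 ≤ 2 * Real.pi * |L ξ| * ‖g ξ‖ := by positivity
    calc _ ≤ 1 * (2 * Real.pi * |L ξ| * ‖g ξ‖) := mul_le_mul_of_nonneg_right (hexp ξ) h0
      _ ≤ _ := by rw [one_mul]; exact h1
  have key := hasDerivAt_integral_of_dominated_loc_of_deriv_le (μ := (volume : Measure ℂ))
    (F := F) (F' := F') (x₀ := (0 : ℝ)) (s := Set.univ)
    (bound := fun ξ => 2 * Real.pi * (‖ξ‖ ^ 1 * ‖g ξ‖)) Filter.univ_mem
    (Filter.Eventually.of_forall fun s => (hFm s).aestronglyMeasurable)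
    (hint.norm.mono' (hFm 0).aestronglyMeasurable (Filter.Eventually.of_forall (hFb 0)))
    (hF'm 0).aestronglyMeasurable
    (Filter.Eventually.of_forall fun ξ s _ => hF'b s ξ)
    ((hk 1).const_mul _)
    (Filter.Eventually.of_forall fun ξ s _ => by
      simp only [F, F']
      have h1 : HasDerivAt (fun s : ℝ => ch (z + s • v) ξ)
          (ch (z + s • v) ξ * (2 * Real.pi * I * L ξ)) s := by
        unfold ch
        have h2 : HasDerivAt (fun s : ℝ =>
            2 * (Real.pi : ℂ) * I * (((z + s • v).re * ξ.re + (z + s • v).im * ξ.im : ℝ) : ℂ))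
            (2 * Real.pi * I * L ξ) s := by
          have h3 : HasDerivAt (fun s : ℝ =>
              ((z + s • v).re * ξ.re + (z + s • v).im * ξ.im : ℝ)) (L ξ) s := by
            have e2 : (fun s : ℝ => ((z + s • v).re * ξ.re + (z + s • v).im * ξ.im : ℝ)) =
                fun s => (z.re * ξ.re + z.im * ξ.im) + s * L ξ := by
              funext s
              rw [← hLv ξ]
              simp only [Complex.add_re, Complex.add_im, Complex.smul_re, Complex.smul_im,
                smul_eq_mul]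
              ring
            rw [e2]
            have := ((hasDerivAt_id s).mul_const (L ξ)).const_add (z.re * ξ.re + z.im * ξ.im)
            simpa using this
          exact (h3.ofReal_comp).const_mul _
        exact h2.cexp
      have h4 := h1.mul_const (((Real.exp (-(max t 0) * ‖ξ‖ ^ 2) : ℝ) : ℂ) * g ξ)
      refine h4.congr_deriv ?_
      ring)
  have h5 := key.2
  unfold HasLineDerivAt
  have e0 : (∫ ξ, F' 0 ξ) = HE (fun ξ => (2 * Real.pi * I * L ξ) * g ξ) t z := by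
    simp only [F', HE, zero_smul, add_zero]
  rw [← e0]
  exact h5

theorem a3_final (h : StA1) : StA3 := by
  intro g hg t z
  refine ⟨?_, ?_⟩
  · have := a3_main h g hg t z 1 (fun ξ => ξ.re) Complex.continuous_re
      (fun ξ => Complex.abs_re_le_norm ξ) (fun ξ => by simp)
    exact this
  · have := a3_main h g hg t z I (fun ξ => ξ.im) Complex.continuous_im
      (fun ξ => Complex.abs_im_le_norm ξ) (fun ξ => by simp)
    exact this

end Helper85.IW

namespace Helper42.IW_A3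

theorem main (h : Helper85.IW.StA1) : Helper85.IW.StA3 := Helper85.IW.a3_final h

end Helper42.IW_A3
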