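import Pool.Agent.Helper85.IW.Statements

set_option autoImplicit false
set_option maxSynthPendingDepth 3

/-! # Fourier transforms of Schwartz functions and heat extensions (module A6) -/

open MeasureTheory Complex Filter Topology FourierTransform SchwartzMap
open scoped ENNReal NNReal ComplexConjugate

noncomputable section

namespace Helper42.IW_A6

open Helper72.BA Helper85.IW

theorem inner_eq (v w : ℂ) : inner ℝ v w = v.re * w.re + v.im * w.im := by
  rw [Complex.inner]
  simp [Complex.mul_re, mul_comm]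

theorem gf_eq_fun (f : ℂ → ℂ) : gf f = 𝓕 f := by
  funext ξ
  rw [Real.fourier_eq', gf]
  refine integral_congr_ae (Filter.Eventually.of_forall fun w => ?_)
  simp only [smul_eq_mul, inner_eq]
  congr 2
  push_cast
  ring

theorem gf_eq (f : SchwartzMap ℂ ℂ) : gf f = ((𝓕 f : SchwartzMap ℂ ℂ) : ℂ → ℂ) := by
  rw [gf_eq_fun, SchwartzMap.fourier_coe]

theorem rap_schwartz (f : SchwartzMap ℂ ℂ) : Rap f := by
  refine ⟨f.continuous.measurable, fun k => ?_⟩
  obtain ⟨C, hC⟩ := f.decay k 0
  refine ⟨C, fun ξ => ?_⟩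
  have := hC.2 ξ
  rwa [norm_iteratedFDeriv_zero] at this

theorem norm_conj_div_le (ξ : ℂ) : ‖conj ξ / ξ‖ ≤ 1 := by
  rw [norm_div, Complex.norm_conj]
  exact div_self_le_one _

theorem main (_h : StA1) : StA6 := by
  intro f
  have hr : Rap (gf f) := by
    rw [gf_eq]
    exact rap_schwartz _
  refine ⟨hr, ⟨?_, fun k => ?_⟩, fun ξ => ?_, fun z => ?_, fun z => ?_⟩
  · have h1 : Measurable fun ξ : ℂ => (starRingEnd ℂ ξ / ξ) :=
      Complex.continuous_conj.measurable.div measurable_id
    exact h1.mul hr.meas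
  · obtain ⟨K, hK⟩ := hr.bdd k
    refine ⟨K, fun ξ => le_trans ?_ (hK ξ)⟩
    refine mul_le_mul_of_nonneg_left ?_ (by positivity)
    rw [gT, norm_mul]
    calc ‖conj ξ / ξ‖ * ‖gf f ξ‖ ≤ 1 * ‖gf f ξ‖ :=
          mul_le_mul_of_nonneg_right (norm_conj_div_le ξ) (norm_nonneg _)
      _ = ‖gf f ξ‖ := one_mul _
  · rw [gT]
    by_cases h0 : ξ = 0
    · subst h0
      simp
    · field_simp
  · have hinv : 𝓕⁻ (𝓕 (f : ℂ → ℂ)) = f := by
      refine Continuous.fourierInv_fourier_eq f.continuous f.integrable ?_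
      rw [← SchwartzMap.fourier_coe]
      exact (𝓕 f : SchwartzMap ℂ ℂ).integrable
    have h1 : 𝓕⁻ (𝓕 (f : ℂ → ℂ)) z = f z := by rw [hinv]
    rw [← h1, Real.fourierInv_eq', HE, gf_eq_fun]
    refine integral_congr_ae (Filter.Eventually.of_forall fun w => ?_)
    simp only [max_self, neg_zero, zero_mul, Real.exp_zero, Complex.ofReal_one, one_mul,
      smul_eq_mul, inner_eq, ch]
    congr 2
    push_cast
    ring
  · rw [HE, Tn]
    refine integral_congr_ae (Filter.Eventually.of_forall fun w => ?_)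
    simp only [max_self, neg_zero, zero_mul, Real.exp_zero, Complex.ofReal_one, one_mul,
      gT, gf, ch, pow_one]

end Helper42.IW_A6
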