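import Pool.Agent.Helper85.LC.Defs

/-!
# Module C: cycles from lists
-/

set_option linter.unusedVariables false

namespace Pool.H85.LC

open Finset

theorem hasCycle_of_list {V : Type*} {Γ : SimpleGraph V} {l : List V} (hn : l.Nodup)
    (hc : l.IsChain Γ.Adj) (h3 : 3 ≤ l.length)
    (hl : ∀ x ∈ l.getLast?, ∀ y ∈ l.head?, Γ.Adj x y) {m : ℝ} (hm : m ≤ l.length) :
    HasCycle Γ m := by
  have hne : l ≠ [] := by
    rintro rfl
    simp at h3
  have hadj : Γ.Adj (l.getLast hne) (l.head hne) :=
    hl _ (by simp [List.getLast?_eq_getLast_of_ne_nil hne]) _ (by simp [List.head?_eq_some_head hne])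
  let p := SimpleGraph.Walk.ofSupport l hne hc
  have hlen : p.length = l.length - 1 := SimpleGraph.Walk.length_ofSupport hne hc
  have hp : p.IsPath := by
    rw [SimpleGraph.Walk.isPath_def, SimpleGraph.Walk.support_ofSupport]
    exact hn
  have hlen2 : (SimpleGraph.Walk.cons hadj p).length = l.length := by
    rw [SimpleGraph.Walk.length_cons, hlen]
    omega
  refine ⟨_, SimpleGraph.Walk.cons hadj p, ?_, ?_⟩
  · rw [SimpleGraph.Walk.isCycle_iff_isPath_tail_and_le_length]
    refine ⟨?_, by rw [hlen2]; exact h3⟩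
    simpa using hp
  · rw [hlen2]
    exact hm

theorem HasCycle.mono {V : Type*} {Γ Γ' : SimpleGraph V} (h : Γ ≤ Γ') {m m' : ℝ}
    (hm : m' ≤ m) (hc : HasCycle Γ m) : HasCycle Γ' m' := by
  obtain ⟨v, c, h1, h2⟩ := hc
  refine ⟨v, c.mapLe h, h1.mapLe h, ?_⟩
  rw [SimpleGraph.Walk.length_map]
  exact hm.trans h2

/-- a long vertical edge closes a long cycle -/
theorem hasCycle_of_vertical {V : Type*} {Γ Γ' : SimpleGraph V} {π : V → List V}
    (hπ : IsForest π) (hch : ∀ z, (π z).IsChain Γ.Adj) (hΓ : Γ ≤ Γ') {x y : V}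
    (hxy : x ∈ π y) (hadj : Γ'.Adj x y) {L : ℕ} (hL : 2 ≤ L)
    (hlen : (π x).length + L ≤ (π y).length) {m : ℝ} (hm : m ≤ L) : HasCycle Γ' m := by
  obtain ⟨s, hs⟩ := hπ.closed y x hxy
  have hx := hπ.last x
  obtain ⟨l', hl'⟩ : ∃ l', π x = l' ++ [x] := by
    rcases List.eq_nil_or_concat (π x) with h | ⟨l', b, h⟩
    · rw [h] at hx; simp at hx
    · rw [h] at hx
      simp at hx
      exact ⟨l', by rw [h, hx, List.concat_eq_append]⟩
  have hyeq : π y = l' ++ (x :: s) := by rw [← hs, hl']; simp
  have hsl : L ≤ s.length := by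
    have := congrArg List.length hs
    rw [List.length_append] at this
    omega
  have hn : (x :: s).Nodup := by
    have := hπ.nodup y
    rw [hyeq] at this
    exact this.of_append_right
  have hc : (x :: s).IsChain Γ'.Adj := by
    have := hch y
    rw [hyeq] at this
    exact ((List.isChain_append.1 this).2.1).imp fun a b hab => hΓ hab
  have hlast : (x :: s).getLast? = some y := by
    have := hπ.last y
    rw [hyeq, List.getLast?_append] at this
    simpa using this
  refine hasCycle_of_list hn hc (by simp; omega) ?_ ?_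
  · intro a ha b hb
    rw [hlast] at ha
    simp at ha hb
    rw [← ha, ← hb]
    exact hadj.symm
  · refine hm.trans ?_
    rw [List.length_cons]
    push_cast
    have : (L : ℝ) ≤ s.length := by exact_mod_cast hsl
    linarith

namespace C

/-- a consecutive sublist of a chain is a chain -/
theorem chain_of_inf {V : Type*} {R : V → V → Prop} {l l' : List V} (h : l.IsChain R)
    (h' : l' <:+: l) : l'.IsChain R := by
  obtain ⟨s, t, rfl⟩ := h'
  exact h.left_of_append.right_of_append


theorem segment {V : Type*} {P : List V} {t : ℕ} {x y : V}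
    (hx : x ∈ P.drop (P.length - t)) (hy : y ∈ P.take t) (hlen : 2 * t ≤ P.length) :
    ∃ Q : List V, Q <:+: P ∧ Q.head? = some y ∧ Q.getLast? = some x ∧
      P.length + 2 ≤ Q.length + 2 * t := by
  obtain ⟨a, ha, hya⟩ := List.getElem_of_mem hy
  obtain ⟨b, hb, hxb⟩ := List.getElem_of_mem hx
  rw [List.length_take] at ha
  rw [List.length_drop] at hb
  rw [List.getElem_take] at hya
  rw [List.getElem_drop] at hxb
  have h1 : a < P.length - t + b + 1 := by omega
  refine ⟨(P.take (P.length - t + b + 1)).drop a, ?_, ?_, ?_, ?_⟩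
  · exact (List.drop_suffix _ _).isInfix.trans (List.take_prefix _ _).isInfix
  · rw [List.head?_drop, List.getElem?_take_of_lt h1, List.getElem?_eq_getElem (by omega), hya]
  · rw [List.getLast?_eq_getElem?, List.length_drop, List.length_take, List.getElem?_drop,
      List.getElem?_take_of_lt (by omega), List.getElem?_eq_getElem (by omega)]
    rw [← hxb]
    congr 2
    omega
  · rw [List.length_drop, List.length_take]
    omega

end C

theorem ring_cycle {V : Type*} (Γ : SimpleGraph V) (r t : ℕ) (hr : 2 ≤ r) (P : ℕ → List V)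
    (hnd : ∀ i < r, (P i).Nodup) (hch : ∀ i < r, (P i).IsChain Γ.Adj)
    (hdis : ∀ i < r, ∀ j < r, i ≠ j → (P i).Disjoint (P j))
    (hlen : ∀ i < r, 2 * t ≤ (P i).length)
    (hlink : ∀ i < r, ∃ x ∈ (P i).drop ((P i).length - t),
      ∃ y ∈ (P ((i + 1) % r)).take t, Γ.Adj x y)
    {m : ℝ} (hm : m ≤ ∑ i ∈ range r, (((P i).length : ℝ) - 2 * t)) : HasCycle Γ m := by
  classical
  have hV : Nonempty V := by
    obtain ⟨x, _⟩ := hlink 0 (by omega)
    exact ⟨x⟩
  choose! X hX Y hY hXY using hlink
  have hseg : ∀ i < r, ∃ Q : List V, Q <:+: P i ∧ Q.head? = some (Y ((i + r - 1) % r)) ∧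
      Q.getLast? = some (X i) ∧ (P i).length + 2 ≤ Q.length + 2 * t := by
    intro i hi
    have h1 : ((i + r - 1) % r + 1) % r = i := by
      rw [Nat.mod_add_mod, show i + r - 1 + 1 = i + r by omega, Nat.add_mod_right,
        Nat.mod_eq_of_lt hi]
    have h2 := hY ((i + r - 1) % r) (Nat.mod_lt _ (by omega))
    rw [h1] at h2
    exact C.segment (hX i hi) h2 (hlen i hi)
  choose! Q hQ1 hQ2 hQ3 hQ4 using hseg
  have key : ∀ n, 1 ≤ n → n ≤ r → ∃ L : List V, L.Nodup ∧ L.IsChain Γ.Adj ∧
      L.head? = some (Y (r - 1)) ∧ L.getLast? = some (X (n - 1)) ∧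
      (∀ v ∈ L, ∃ i < n, v ∈ P i) ∧
      ∑ i ∈ range n, (((P i).length : ℝ) - 2 * t + 2) ≤ L.length := by
    intro n hn
    induction n, hn using Nat.le_induction with
    | base =>
      intro _
      have h0 : 0 < r := by omega
      refine ⟨Q 0, (hnd 0 h0).sublist (hQ1 0 h0).sublist, C.chain_of_inf (hch 0 h0) (hQ1 0 h0), ?_, ?_, ?_, ?_⟩
      · rw [hQ2 0 h0]
        congr 2
        rw [Nat.mod_eq_of_lt (by omega)]
        omega
      · exact hQ3 0 h0
      · intro v hv
        exact ⟨0, by omega, (hQ1 0 h0).subset hv⟩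
      · have h := hQ4 0 h0
        have h' : ((P 0).length : ℝ) + 2 ≤ (Q 0).length + 2 * t := by exact_mod_cast h
        simp
        linarith
    | succ n hn ih =>
      intro hnr
      have hn' : n < r := by omega
      obtain ⟨L, h1, h2, h3, h4, h5, h6⟩ := ih (by omega)
      refine ⟨L ++ Q n, ?_, ?_, ?_, ?_, ?_, ?_⟩
      · rw [List.nodup_append']
        refine ⟨h1, (hnd n hn').sublist (hQ1 n hn').sublist, ?_⟩
        intro v hv hv'
        obtain ⟨i, hi, hvi⟩ := h5 v hv
        exact hdis i (by omega) n hn' (by omega) hvi ((hQ1 n hn').subset hv')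
      · rw [List.isChain_append]
        refine ⟨h2, C.chain_of_inf (hch n hn') (hQ1 n hn'), ?_⟩
        intro a ha b hb
        rw [h4] at ha
        rw [hQ2 n hn'] at hb
        simp only [Option.mem_def, Option.some.injEq] at ha hb
        rw [← ha, ← hb]
        have h7 : (n + r - 1) % r = n - 1 := by
          rw [show n + r - 1 = (n - 1) + r by omega, Nat.add_mod_right, Nat.mod_eq_of_lt (by omega)]
        rw [h7]
        exact hXY (n - 1) (by omega)
      · rw [List.head?_append, h3]
        simp
      · rw [List.getLast?_append, hQ3 n hn']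
        simp
      · intro v hv
        rw [List.mem_append] at hv
        rcases hv with hv | hv
        · obtain ⟨i, hi, hvi⟩ := h5 v hv
          exact ⟨i, by omega, hvi⟩
        · exact ⟨n, by omega, (hQ1 n hn').subset hv⟩
      · rw [Finset.sum_range_succ, List.length_append]
        push_cast
        have h := hQ4 n hn'
        have h' : ((P n).length : ℝ) + 2 ≤ (Q n).length + 2 * t := by exact_mod_cast h
        linarith
  obtain ⟨L, h1, h2, h3, h4, h5, h6⟩ := key r (by omega) le_rfl
  have h7 : (2 : ℝ) * r + ∑ i ∈ range r, (((P i).length : ℝ) - 2 * t) ≤ L.length := by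
    rw [Finset.sum_add_distrib] at h6
    simp only [Finset.sum_const, Finset.card_range, nsmul_eq_mul] at h6
    linarith
  have h8 : (0 : ℝ) ≤ ∑ i ∈ range r, (((P i).length : ℝ) - 2 * t) := by
    refine Finset.sum_nonneg fun i hi => ?_
    have := hlen i (Finset.mem_range.1 hi)
    have h' : (2 : ℝ) * t ≤ (P i).length := by exact_mod_cast this
    linarith
  have h9 : (2 : ℝ) ≤ r := by exact_mod_cast hr
  refine hasCycle_of_list h1 h2 ?_ ?_ ?_
  · have : (4 : ℝ) ≤ L.length := by linarith
    have : 4 ≤ L.length := by exact_mod_cast this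
    omega
  · intro a ha b hb
    rw [h4] at ha
    rw [h3] at hb
    simp only [Option.mem_def, Option.some.injEq] at ha hb
    rw [← ha, ← hb]
    exact hXY (r - 1) (by omega)
  · linarith

end Pool.H85.LC
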