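import Pool.Agent.Helper85.LC.Defs

/-!
# Module D1: the lexicographic depth first search forest
-/

namespace Pool.H85.LC

namespace D1

set_option linter.unusedVariables false
set_option linter.unusedSectionVars false

variable {V : Type*} [LinearOrder V]

theorem lt_cases : ∀ {l1 l2 : List V}, l1 < l2 → (∃ b s, l2 = l1 ++ b :: s) ∨
    ∃ δ a b s t, l1 = δ ++ a :: s ∧ l2 = δ ++ b :: t ∧ a < b
  | [], [], h => absurd h (lt_irrefl _)
  | [], b :: s, _ => Or.inl ⟨b, s, rfl⟩
  | a :: s, [], h => by cases h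
  | a :: s, b :: t, h => by
    cases h with
    | rel h => exact Or.inr ⟨[], a, b, s, t, rfl, rfl, h⟩
    | cons h =>
      have h' : s < t := h
      rcases lt_cases h' with ⟨c, r, hr⟩ | ⟨δ, c, d, r, q, h1, h2, h3⟩
      · exact Or.inl ⟨c, r, by rw [hr]; rfl⟩
      · exact Or.inr ⟨a :: δ, c, d, r, q, by rw [h1]; rfl, by rw [h2]; rfl, h3⟩

theorem lt_append : ∀ (l : List V) (b : V) (s : List V), l < l ++ b :: s
  | [], b, s => List.Lex.nil
  | a :: l, b, s => List.Lex.cons (lt_append l b s)

theorem lt_diff : ∀ (δ : List V) {a b : V} (s t : List V), a < b → δ ++ a :: s < δ ++ b :: t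
  | [], _, _, _, _, h => List.Lex.rel h
  | _ :: δ, _, _, s, t, h => List.Lex.cons (lt_diff δ s t h)

theorem le_append (l s : List V) : l ≤ l ++ s := by
  cases s with
  | nil => simp
  | cons b s => exact (lt_append l b s).le

variable {Γ : SimpleGraph V}

theorem path_finite [Finite V] (z : V) : {l | IsPathTo Γ z l}.Finite := by
  classical
  have := Fintype.ofFinite V
  have h0 : Finite {l : List V // l.Nodup} := Finite.of_fintype _
  have h : {l : List V | l.Nodup}.Finite := Set.finite_coe_iff.1 h0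
  exact h.subset fun l hl => hl.1

theorem path_single (z : V) : IsPathTo Γ z [z] := ⟨by simp, by simp, by simp⟩

theorem exists_min [Finite V] (Γ : SimpleGraph V) (z : V) :
    ∃ l, IsPathTo Γ z l ∧ ∀ l', IsPathTo Γ z l' → l ≤ l' := by
  obtain ⟨l, hl, hmin⟩ := Set.exists_min_image {l | IsPathTo Γ z l} id (path_finite z)
    ⟨[z], path_single z⟩
  exact ⟨l, hl, hmin⟩

/-- the lexicographically smallest path -/
noncomputable def dfs [Finite V] (Γ : SimpleGraph V) (z : V) : List V := (exists_min Γ z).choose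

theorem dfs_path [Finite V] (Γ : SimpleGraph V) (z : V) : IsPathTo Γ z (dfs Γ z) :=
  (exists_min Γ z).choose_spec.1

theorem dfs_min [Finite V] (Γ : SimpleGraph V) (z : V) {l : List V} (h : IsPathTo Γ z l) :
    dfs Γ z ≤ l := (exists_min Γ z).choose_spec.2 l h

theorem path_mem {z : V} {l : List V} (h : IsPathTo Γ z l) : z ∈ l :=
  List.mem_of_getLast? h.2.2

/-- a prefix of a path ending in `y` is a path -/
theorem path_prefix {z y : V} {α β : List V} (h : IsPathTo Γ z (α ++ y :: β)) :
    IsPathTo Γ y (α ++ [y]) := by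
  have e : α ++ y :: β = (α ++ [y]) ++ β := by simp
  obtain ⟨h1, h2, _⟩ := h
  rw [e] at h1 h2
  exact ⟨h1.of_append_left, (List.isChain_append.1 h2).1, by simp⟩

theorem path_snoc {z w : V} {l : List V} (h : IsPathTo Γ z l) (hw : w ∉ l) (hadj : Γ.Adj z w) :
    IsPathTo Γ w (l ++ [w]) := by
  obtain ⟨h1, h2, h3⟩ := h
  refine ⟨?_, ?_, by simp⟩
  · rw [List.nodup_append]
    refine ⟨h1, by simp, ?_⟩
    intro a ha b hb
    simp only [List.mem_singleton] at hb
    rw [hb]
    rintro rfl
    exact hw ha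
  · rw [List.isChain_append]
    refine ⟨h2, by simp, ?_⟩
    intro x hx y hy
    rw [h3] at hx
    simp only [Option.mem_def, Option.some.injEq] at hx
    simp only [List.head?_cons, Option.mem_def, Option.some.injEq] at hy
    rw [← hx, ← hy]
    exact hadj

theorem step_lt {δ τ : List V} {b w' : V} (h : τ < δ ++ [b]) (hpre : ¬ τ <+: δ) :
    τ ++ [w'] < δ ++ [b] := by
  rcases lt_cases h with ⟨c, s, hs⟩ | ⟨δ', a', b', s', t', h1, h2, h3⟩
  · exfalso
    apply hpre
    rcases List.eq_nil_or_concat (c :: s) with h4 | ⟨r, d, h4⟩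
    · simp at h4
    · rw [h4] at hs
      have h5 : δ ++ [b] = (τ ++ r) ++ [d] := by rw [hs]; simp
      have h6 := (List.append_inj' h5 rfl).1
      exact ⟨r, h6.symm⟩
  · rw [h1, h2]
    have : (δ' ++ a' :: s') ++ [w'] = δ' ++ a' :: (s' ++ [w']) := by simp
    rw [this]
    exact lt_diff _ _ _ h3

/-- the invariant along the rest of the path -/
theorem along {δ : List V} {b : V} : ∀ (β : List V) (y : V), (y :: β).IsChain Γ.Adj →
    (∀ w ∈ y :: β, w ∉ δ) → (∃ τ, IsPathTo Γ y τ ∧ τ < δ ++ [b]) → ∀ z,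
    (y :: β).getLast? = some z → ∃ τ, IsPathTo Γ z τ ∧ τ < δ ++ [b]
  | [], y, _, _, h, z, hz => by
    simp at hz
    rw [← hz]; exact h
  | w :: β, y, hc, hd, h, z, hz => by
    obtain ⟨τ, h1, h2⟩ := h
    have hadj : Γ.Adj y w := by
      rw [List.isChain_cons_cons] at hc
      exact hc.1
    have hc' : (w :: β).IsChain Γ.Adj := by
      rw [List.isChain_cons_cons] at hc
      exact hc.2
    have hz' : (w :: β).getLast? = some z := by
      rw [← hz]; simp
    refine along β w hc' (fun v hv => hd v (List.mem_cons_of_mem _ hv)) ?_ z hz'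
    by_cases hw : w ∈ τ
    · obtain ⟨τ1, τ2, rfl⟩ := List.append_of_mem hw
      refine ⟨τ1 ++ [w], path_prefix h1, lt_of_le_of_lt ?_ h2⟩
      have : τ1 ++ w :: τ2 = (τ1 ++ [w]) ++ τ2 := by simp
      rw [this]
      exact le_append _ _
    · refine ⟨τ ++ [w], path_snoc h1 hw hadj, step_lt h2 ?_⟩
      rintro ⟨r, hr⟩
      exact hd y (by simp) (by rw [← hr]; exact List.mem_append_left _ (path_mem h1))

theorem closed [Finite V] (Γ : SimpleGraph V) (z y : V) (hy : y ∈ dfs Γ z) :
    dfs Γ y <+: dfs Γ z := by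
  obtain ⟨α, β, hαβ⟩ := List.append_of_mem hy
  have hp := dfs_path Γ z
  rw [hαβ] at hp
  have hpy := path_prefix hp
  have hle := dfs_min Γ y hpy
  rcases hle.lt_or_eq with hlt | heq
  · exfalso
    have hσ := dfs_path Γ y
    rcases lt_cases hlt with ⟨b, s, hs⟩ | ⟨δ, a, b, s, t, h1, h2, h3⟩
    · -- prefix case
      have hn := hpy.1
      rw [hs] at hn
      have hl : (b :: s).getLast? = some y := by
        have h4 : (dfs Γ y ++ b :: s).getLast? = some y := by rw [← hs]; simp
        rw [List.getLast?_append] at h4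
        simpa using h4
      exact (List.nodup_append.1 hn).2.2 y (path_mem hσ) y (List.mem_of_getLast? hl) rfl
    · -- first difference
      obtain ⟨hn, hc, hlast⟩ := hp
      have hδα : ∀ w ∈ δ, w ∈ α := by
        intro w hw
        rcases List.eq_nil_or_concat (b :: t) with h4 | ⟨r, d, h4⟩
        · simp at h4
        · rw [h4] at h2
          have h5 : α ++ [y] = (δ ++ r) ++ [d] := by rw [h2]; simp
          have h6 := (List.append_inj' h5 rfl).1
          rw [h6]
          exact List.mem_append_left _ hw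
      have hlast' : (y :: β).getLast? = some z := by
        rw [List.getLast?_append] at hlast
        simpa using hlast
      obtain ⟨τ, hτ1, hτ2⟩ := along (Γ := Γ) (δ := δ) (b := b) β y
        ((List.isChain_append.1 hc).2.1)
        (fun w hw hw' => (List.nodup_append.1 hn).2.2 w (hδα w hw') w hw rfl)
        ⟨dfs Γ y, hσ, by rw [h1]; exact lt_diff _ _ _ h3⟩ z hlast'
      have h7 : δ ++ [b] ≤ dfs Γ z := by
        have h8 : dfs Γ z = (δ ++ [b]) ++ (t ++ β) := by
          rw [hαβ]
          have : α ++ y :: β = (α ++ [y]) ++ β := by simp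
          rw [this, h2]
          simp
        rw [h8]
        exact le_append _ _
      exact absurd (dfs_min Γ z hτ1) (not_le.2 (hτ2.trans_le h7))
  · rw [heq, hαβ]
    exact ⟨β, by simp⟩

theorem vert_aux [Finite V] (Γ : SimpleGraph V) (u z : V) (h : Γ.Adj u z)
    (hlt : dfs Γ u < dfs Γ z) : u ∈ dfs Γ z ∨ z ∈ dfs Γ u := by
  rcases lt_cases hlt with ⟨b, s, hs⟩ | ⟨δ, a, b, s, t, h1, h2, h3⟩
  · left
    rw [hs]
    exact List.mem_append_left _ (path_mem (dfs_path Γ u))
  · right
    by_contra hz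
    have h4 := dfs_min Γ z (path_snoc (dfs_path Γ u) hz h)
    refine absurd h4 (not_le.2 ?_)
    rw [h1, h2]
    have : (δ ++ a :: s) ++ [z] = δ ++ a :: (s ++ [z]) := by simp
    rw [this]
    exact lt_diff _ _ _ h3

theorem isDFS [Finite V] : IsDFS (dfs (V := V)) where
  path := dfs_path
  closed := closed
  vert := by
    intro Γ u z h
    rcases lt_trichotomy (dfs Γ u) (dfs Γ z) with h1 | h1 | h1
    · exact vert_aux Γ u z h h1
    · left
      rw [← h1]
      exact path_mem (dfs_path Γ u)
    · exact (vert_aux Γ z u h.symm h1).symm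
  stable := by
    intro Γ Γ' z hle hp
    refine le_antisymm (dfs_min Γ' z hp) (dfs_min Γ z ?_)
    obtain ⟨h1, h2, h3⟩ := dfs_path Γ' z
    exact ⟨h1, h2.imp fun a b hab => hle hab, h3⟩

end D1

theorem exists_dfs (V : Type*) [Finite V] : ∃ dfs : SimpleGraph V → V → List V, IsDFS dfs := by
  let _ : LinearOrder V := LinearOrder.lift' (Finite.equivFin V) (Finite.equivFin V).injective
  exact ⟨D1.dfs, D1.isDFS⟩

theorem IsDFS.forest {V : Type*} {dfs : SimpleGraph V → V → List V} (h : IsDFS dfs)
    (Γ : SimpleGraph V) : IsForest (dfs Γ) :=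
  ⟨fun z => (h.path Γ z).1, fun z => (h.path Γ z).2.2, h.closed Γ⟩

end Pool.H85.LC
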