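import Pool.Agent.Helper55.TM.Basic

/-! Module C1 for MP_fc8395_an: limits of C¹ sequences. -/

open scoped ContDiff Topology
open Filter Set

namespace TM

private lemma tail_tendsto {ε : ℕ → ℝ} :
    Tendsto (fun n => ∑' m, ε (n + m)) atTop (𝓝 0) := by
  have h := _root_.tendsto_sum_nat_add ε
  simpa [add_comm] using h

private lemma unif {α F : Type*} [NormedAddCommGroup F] {O : Set α} {f : ℕ → α → F}
    {g : α → F} {ε : ℕ → ℝ} (hε : Summable ε)
    (h : ∀ n, ∀ q ∈ O, ‖f (n + 1) q - f n q‖ ≤ ε n)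
    (hg : ∀ q ∈ O, Tendsto (fun n => f n q) atTop (𝓝 (g q))) :
    TendstoUniformlyOn f g atTop O := by
  rw [Metric.tendstoUniformlyOn_iff]
  intro δ hδ
  filter_upwards [tail_tendsto.eventually (gt_mem_nhds hδ)] with n hn q hq
  have h1 := dist_le_tsum_of_dist_le_of_tendsto (f := fun n => f n q) ε
    (fun n => by rw [dist_comm, dist_eq_norm]; exact h n q hq) hε (hg q hq) n
  rw [dist_comm]
  exact h1.trans_lt hn

theorem C1_limit {E : Type*} [NormedAddCommGroup E] [NormedSpace ℝ E] [CompleteSpace E]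
    {O : Set (ℝ × ℝ)} (hO : IsOpen O) (hOc : Convex ℝ O) {s : ℕ → ℝ × ℝ → E} {ε : ℕ → ℝ}
    (hs : ∀ n, ContDiffOn ℝ 1 (s n) O) (hε : Summable ε)
    (h0 : ∀ n, ∀ q ∈ O, ‖s (n + 1) q - s n q‖ ≤ ε n)
    (h1 : ∀ n, ∀ q ∈ O, ‖fderiv ℝ (s (n + 1)) q - fderiv ℝ (s n) q‖ ≤ ε n) :
    ∃ S : ℝ × ℝ → E, ContDiffOn ℝ 1 S O ∧ ∀ q ∈ O, Tendsto (fun n => s n q) atTop (𝓝 (S q)) := by
  classical
  have hc0 : ∀ q ∈ O, ∃ a, Tendsto (fun n => s n q) atTop (𝓝 a) := by
    intro q hq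
    exact cauchySeq_tendsto_of_complete (cauchySeq_of_dist_le_of_summable ε
      (fun n => by rw [dist_comm, dist_eq_norm]; exact h0 n q hq) hε)
  have hc1 : ∀ q ∈ O, ∃ a, Tendsto (fun n => fderiv ℝ (s n) q) atTop (𝓝 a) := by
    intro q hq
    exact cauchySeq_tendsto_of_complete (cauchySeq_of_dist_le_of_summable ε
      (fun n => by rw [dist_comm, dist_eq_norm]; exact h1 n q hq) hε)
  choose! S hS using hc0
  choose! S' hS' using hc1
  have hu := unif hε h1 hS'
  have hd : ∀ n, ∀ q ∈ O, HasFDerivAt (s n) (fderiv ℝ (s n) q) q := fun n q hq =>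
    (((hs n).differentiableOn (by norm_num)).differentiableAt (hO.mem_nhds hq)).hasFDerivAt
  have hD : ∀ q ∈ O, HasFDerivAt S (S' q) q := fun q hq =>
    hasFDerivAt_of_tendstoUniformlyOn hO hu hd hS hq
  have hcont : ContinuousOn S' O := by
    refine hu.continuousOn (Frequently.of_forall fun n => ?_)
    exact (hs n).continuousOn_fderiv_of_isOpen hO (by norm_num)
  refine ⟨S, ?_, hS⟩
  have h01 : (1 : WithTop ℕ∞) = 0 + 1 := by norm_num
  rw [h01, contDiffOn_succ_iff_fderiv_of_isOpen hO]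
  refine ⟨fun q hq => (hD q hq).differentiableAt.differentiableWithinAt, by simp, ?_⟩
  rw [contDiffOn_zero]
  exact hcont.congr fun q hq => (hD q hq).fderiv

end TM
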