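import Pool.Agent.Helper55.TM.Basic

/-! Module CL for MP_fc8395_an: smooth lift of a curve on the unit circle. -/

open scoped ContDiff Topology
open Filter Set

namespace TM

/-- The circle lift. -/
theorem circle_lift {a b : ℝ} {c s : ℝ → ℝ} (hc : ContDiffOn ℝ ∞ c (Ioo a b))
    (hs : ContDiffOn ℝ ∞ s (Ioo a b)) (h : ∀ x ∈ Ioo a b, c x ^ 2 + s x ^ 2 = 1)
    {x0 τ0 : ℝ} (hx0 : x0 ∈ Ioo a b) (h1 : c x0 = Real.cos τ0) (h2 : s x0 = Real.sin τ0) :
    ∃ h : ℝ → ℝ, ContDiffOn ℝ ∞ h (Ioo a b) ∧ h x0 = τ0 ∧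
      ∀ x ∈ Ioo a b, c x = Real.cos (h x) ∧ s x = Real.sin (h x) := by
  have ho : IsOpen (Ioo a b) := isOpen_Ioo
  have hc' := (contDiffOn_infty_iff_deriv_of_isOpen ho).1 hc
  have hs' := (contDiffOn_infty_iff_deriv_of_isOpen ho).1 hs
  set w : ℝ → ℝ := fun x => c x * deriv s x - s x * deriv c x with hw
  have hwc : ContDiffOn ℝ ∞ w (Ioo a b) := (hc.mul hs'.2).sub (hs.mul hc'.2)
  have hwcont : ContinuousOn w (Ioo a b) := hwc.continuousOn
  set g : ℝ → ℝ := fun x => τ0 + ∫ t in x0..x, w t with hg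
  have hsub : ∀ x ∈ Ioo a b, uIcc x0 x ⊆ Ioo a b := fun x hx =>
    (ordConnected_Ioo.uIcc_subset hx0 hx)
  have hgd : ∀ x ∈ Ioo a b, HasDerivAt g (w x) x := by
    intro x hx
    have h3 : IntervalIntegrable w MeasureTheory.volume x0 x :=
      (hwcont.mono (hsub x hx)).intervalIntegrable
    have h4 : ContinuousAt w x := hwcont.continuousAt (ho.mem_nhds hx)
    have h5 : StronglyMeasurableAtFilter w (𝓝 x) MeasureTheory.volume :=
      hwcont.stronglyMeasurableAtFilter ho x hx
    exact (intervalIntegral.integral_hasDerivAt_right h3 h5 h4).const_add τ0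
  have hgs : ContDiffOn ℝ ∞ g (Ioo a b) := by
    rw [contDiffOn_infty_iff_deriv_of_isOpen ho]
    refine ⟨fun x hx => (hgd x hx).differentiableAt.differentiableWithinAt, ?_⟩
    exact hwc.congr fun x hx => (hgd x hx).deriv
  have hg0 : g x0 = τ0 := by simp [hg]
  refine ⟨g, hgs, hg0, ?_⟩
  have hcd : ∀ x ∈ Ioo a b, HasDerivAt c (deriv c x) x := fun x hx =>
    (hc'.1.differentiableAt (ho.mem_nhds hx)).hasDerivAt
  have hsd : ∀ x ∈ Ioo a b, HasDerivAt s (deriv s x) x := fun x hx =>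
    (hs'.1.differentiableAt (ho.mem_nhds hx)).hasDerivAt
  have hortho : ∀ x ∈ Ioo a b, c x * deriv c x + s x * deriv s x = 0 := by
    intro x hx
    have h3 : HasDerivAt (fun x => c x ^ 2 + s x ^ 2)
        (2 * c x ^ 1 * deriv c x + 2 * s x ^ 1 * deriv s x) x :=
      ((hcd x hx).pow 2).add ((hsd x hx).pow 2)
    have h4 : (fun x => c x ^ 2 + s x ^ 2) =ᶠ[𝓝 x] fun _ => (1 : ℝ) := by
      filter_upwards [ho.mem_nhds hx] with y hy using h y hy
    have h5 := h3.unique ((hasDerivAt_const x (1 : ℝ)).congr_of_eventuallyEq h4)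
    linarith
  set A : ℝ → ℝ := fun x => c x * Real.cos (g x) + s x * Real.sin (g x) with hA
  have hAd : ∀ x ∈ Ioo a b, HasDerivAt A 0 x := by
    intro x hx
    have h3 : HasDerivAt A ((deriv c x * Real.cos (g x) + c x * (-Real.sin (g x) * w x)) +
        (deriv s x * Real.sin (g x) + s x * (Real.cos (g x) * w x))) x :=
      ((hcd x hx).mul (hgd x hx).cos).add ((hsd x hx).mul (hgd x hx).sin)
    convert h3 using 1
    have e1 := hortho x hx
    have e2 := h x hx
    simp only [hw]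
    linear_combination (-(deriv c x) * Real.cos (g x) - deriv s x * Real.sin (g x)) * e2 * (-1) +
      (c x * Real.cos (g x) + s x * Real.sin (g x)) * e1 * (-1)
  have hAconst : ∀ x ∈ Ioo a b, A x = 1 := by
    intro x hx
    have h3 : A x = A x0 := by
      have h4 : DifferentiableOn ℝ A (Ioo a b) := fun y hy =>
        (hAd y hy).differentiableAt.differentiableWithinAt
      exact ho.is_const_of_deriv_eq_zero isPreconnected_Ioo h4 (fun y hy => (hAd y hy).deriv) hx hx0
    rw [h3, hA]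
    simp only [hg0, h1, h2]
    have := Real.cos_sq_add_sin_sq τ0
    nlinarith
  intro x hx
  have e1 := hAconst x hx
  have e2 := h x hx
  have e3 := Real.cos_sq_add_sin_sq (g x)
  simp only [hA] at e1
  have e4 : (s x * Real.cos (g x) - c x * Real.sin (g x)) ^ 2 = 0 := by
    have : (c x * Real.cos (g x) + s x * Real.sin (g x)) ^ 2 +
        (s x * Real.cos (g x) - c x * Real.sin (g x)) ^ 2 =
        (c x ^ 2 + s x ^ 2) * (Real.cos (g x) ^ 2 + Real.sin (g x) ^ 2) := by ring
    rw [e1, e2, e3] at this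
    linarith
  have e5 : s x * Real.cos (g x) - c x * Real.sin (g x) = 0 := by
    exact pow_eq_zero_iff (two_ne_zero) |>.1 e4
  constructor
  · linear_combination Real.cos (g x) * e1 - Real.sin (g x) * e5 - c x * e3
  · linear_combination Real.sin (g x) * e1 + Real.cos (g x) * e5 - s x * e3

end TM
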