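import Pool.Agent.Helper55.TM.Basic

/-! Module GL for MP_fc8395_an: Lipschitz bounds for the normalised direction. -/

open scoped ContDiff Topology
open Filter Set

namespace TM

/-- The normalised direction `(1, m) / NN(q, m)`. -/
noncomputable def Gam (NN : (ℝ × ℝ) × ℝ → ℝ) (m : ℝ × ℝ → ℝ) (q : ℝ × ℝ) : ℝ × ℝ :=
  (1 / NN (q, m q), m q / NN (q, m q))

private lemma line_lip {E : Type*} [NormedAddCommGroup E] [NormedSpace ℝ E]
    {F : (ℝ × ℝ) × ℝ → E} {q : ℝ × ℝ} {M C : ℝ}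
    (hF : ∀ t ∈ Icc (-M) M, DifferentiableAt ℝ F (q, t))
    (hC : ∀ t ∈ Icc (-M) M, ‖fderiv ℝ F (q, t)‖ ≤ C) {t t' : ℝ} (ht : t ∈ Icc (-M) M)
    (ht' : t' ∈ Icc (-M) M) : ‖F (q, t) - F (q, t')‖ ≤ C * |t - t'| := by
  have hline : ∀ r : ℝ, HasDerivAt (fun r : ℝ => ((q, r) : (ℝ × ℝ) × ℝ)) (((0 : ℝ × ℝ), (1 : ℝ))) r :=
    fun r => (hasDerivAt_const r q).prodMk (hasDerivAt_id r)
  have hd : ∀ r ∈ Icc (-M) M, HasDerivWithinAt (fun r : ℝ => F (q, r))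
      (fderiv ℝ F (q, r) ((0 : ℝ × ℝ), (1 : ℝ))) (Icc (-M) M) r := by
    intro r hr
    exact ((hF r hr).hasFDerivAt.comp_hasDerivAt r (hline r)).hasDerivWithinAt
  have hb : ∀ r ∈ Icc (-M) M, ‖fderiv ℝ F (q, r) ((0 : ℝ × ℝ), (1 : ℝ))‖ ≤ C := by
    intro r hr
    refine ((fderiv ℝ F (q, r)).le_opNorm _).trans ?_
    have : ‖((0 : ℝ × ℝ), (1 : ℝ))‖ = 1 := by simp [Prod.norm_def]
    rw [this, mul_one]
    exact hC r hr
  have := (convex_Icc (-M) M).norm_image_sub_le_of_norm_hasDerivWithin_le hd hb ht' ht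
  simpa [Real.norm_eq_abs] using this

theorem Gam_lip {NN : (ℝ × ℝ) × ℝ → ℝ} {O : Set (ℝ × ℝ)} (hO : IsOpen O)
    (hNN : ContDiffOn ℝ ∞ NN (O ×ˢ univ)) (hpos : ∀ q ∈ O, ∀ m, 0 < NN (q, m))
    {K : Set (ℝ × ℝ)} (hK : IsCompact K) (hKO : K ⊆ O) (M : ℝ) : ∃ C : ℝ, 0 ≤ C ∧
      ∀ q ∈ K, ∀ m m' : ℝ × ℝ → ℝ, DifferentiableAt ℝ m q → DifferentiableAt ℝ m' q →
        |m q| ≤ M → |m' q| ≤ M → ‖fderiv ℝ m q‖ ≤ M → ‖fderiv ℝ m' q‖ ≤ M →
        DifferentiableAt ℝ (Gam NN m) q ∧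
        ‖Gam NN m q‖ ≤ C ∧ ‖fderiv ℝ (Gam NN m) q‖ ≤ C ∧ 1 ≤ C * (Gam NN m q).1 ∧
        ‖Gam NN m q - Gam NN m' q‖ ≤ C * |m q - m' q| ∧
        ‖fderiv ℝ (Gam NN m) q - fderiv ℝ (Gam NN m') q‖
          ≤ C * (|m q - m' q| + ‖fderiv ℝ m q - fderiv ℝ m' q‖) := by
  set OO : Set ((ℝ × ℝ) × ℝ) := O ×ˢ (univ : Set ℝ) with hOO
  have hOOo : IsOpen OO := hO.prod isOpen_univ
  set G : (ℝ × ℝ) × ℝ → ℝ × ℝ := fun p => (1 / NN p, p.2 / NN p) with hG
  have hne : ∀ p ∈ OO, NN p ≠ 0 := fun p hp => (hpos p.1 hp.1 p.2).ne'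
  have hGc : ContDiffOn ℝ ∞ G OO :=
    (contDiffOn_const.div hNN hne).prodMk (contDiffOn_snd.div hNN hne)
  have hG1 : ContDiffOn ℝ ∞ (fderiv ℝ G) OO := by
    have := (contDiffOn_infty_iff_fderiv_of_isOpen hOOo).1 hGc
    exact this.2
  have hG2 : ContinuousOn (fderiv ℝ (fderiv ℝ G)) OO :=
    hG1.continuousOn_fderiv_of_isOpen hOOo (by simp)
  have hn : (∞ : WithTop ℕ∞) ≠ 0 := by simp
  set KK : Set ((ℝ × ℝ) × ℝ) := K ×ˢ Icc (-M) M with hKK
  have hKKc : IsCompact KK := hK.prod isCompact_Icc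
  have hKKO : KK ⊆ OO := prod_mono hKO (subset_univ _)
  obtain ⟨C0, hC0⟩ := hKKc.exists_bound_of_continuousOn (hGc.continuousOn.mono hKKO)
  obtain ⟨C1, hC1⟩ := hKKc.exists_bound_of_continuousOn (hG1.continuousOn.mono hKKO)
  obtain ⟨C2, hC2⟩ := hKKc.exists_bound_of_continuousOn (f := fderiv ℝ (fderiv ℝ G)) (hG2.mono hKKO)
  obtain ⟨C3, hC3⟩ := hKKc.exists_bound_of_continuousOn (hNN.continuousOn.mono hKKO)
  set B : ℝ := |C0| + |C1| + |C2| + |C3| + |M| + 1 with hB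
  have hB1 : 1 ≤ B := by
    have := abs_nonneg C0; have := abs_nonneg C1; have := abs_nonneg C2
    have := abs_nonneg C3; have := abs_nonneg M
    rw [hB]; linarith
  have hb0 : ∀ p ∈ KK, ‖G p‖ ≤ B := fun p hp => (hC0 p hp).trans (by
    have := le_abs_self C0; have := abs_nonneg C1; have := abs_nonneg C2
    have := abs_nonneg C3; have := abs_nonneg M; rw [hB]; linarith)
  have hb1 : ∀ p ∈ KK, ‖fderiv ℝ G p‖ ≤ B := fun p hp => (hC1 p hp).trans (by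
    have := le_abs_self C1; have := abs_nonneg C0; have := abs_nonneg C2
    have := abs_nonneg C3; have := abs_nonneg M; rw [hB]; linarith)
  have hb2 : ∀ p ∈ KK, ‖fderiv ℝ (fderiv ℝ G) p‖ ≤ B := fun p hp => (hC2 p hp).trans (by
    have := le_abs_self C2; have := abs_nonneg C0; have := abs_nonneg C1
    have := abs_nonneg C3; have := abs_nonneg M; rw [hB]; linarith)
  have hb3 : ∀ p ∈ KK, ‖NN p‖ ≤ B := fun p hp => (hC3 p hp).trans (by
    have := le_abs_self C3; have := abs_nonneg C0; have := abs_nonneg C1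
    have := abs_nonneg C2; have := abs_nonneg M; rw [hB]; linarith)
  have hBM : M ≤ B := by
    have := le_abs_self M; have := abs_nonneg C0; have := abs_nonneg C1
    have := abs_nonneg C2; have := abs_nonneg C3; rw [hB]; linarith
  have hBB : B ≤ B * B := by nlinarith
  refine ⟨B * B, by positivity, ?_⟩
  intro q hq m m' hm hm' hmM hmM' hdM hdM'
  have hqt : ∀ t ∈ Icc (-M) M, ((q, t) : (ℝ × ℝ) × ℝ) ∈ KK := fun t ht => ⟨hq, ht⟩
  have ht : m q ∈ Icc (-M) M := abs_le.1 hmM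
  have ht' : m' q ∈ Icc (-M) M := abs_le.1 hmM'
  have hGd : ∀ t ∈ Icc (-M) M, DifferentiableAt ℝ G (q, t) := fun t ht =>
    (hGc.contDiffAt (hOOo.mem_nhds (hKKO (hqt t ht)))).differentiableAt hn
  have hG1d : ∀ t ∈ Icc (-M) M, DifferentiableAt ℝ (fderiv ℝ G) (q, t) := fun t ht =>
    (hG1.contDiffAt (hOOo.mem_nhds (hKKO (hqt t ht)))).differentiableAt hn
  have hcomp : ∀ (f : ℝ × ℝ → ℝ), DifferentiableAt ℝ f q → f q ∈ Icc (-M) M →
      HasFDerivAt (Gam NN f) ((fderiv ℝ G (q, f q)).comp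
        ((ContinuousLinearMap.id ℝ (ℝ × ℝ)).prod (fderiv ℝ f q))) q := by
    intro f hf hfM
    have h1 : HasFDerivAt (fun q => (q, f q))
        ((ContinuousLinearMap.id ℝ (ℝ × ℝ)).prod (fderiv ℝ f q)) q :=
      (hasFDerivAt_id q).prodMk hf.hasFDerivAt
    exact (hGd _ hfM).hasFDerivAt.comp q h1
  have hlipG := line_lip (F := G) hGd (fun t ht => hb1 _ (hqt t ht)) ht ht'
  have hlipD := line_lip (F := fderiv ℝ G) hG1d (fun t ht => hb2 _ (hqt t ht)) ht ht'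
  have hGq : ∀ f : ℝ × ℝ → ℝ, Gam NN f q = G (q, f q) := fun f => rfl
  have hP : ∀ (L : ℝ × ℝ →L[ℝ] ℝ), ‖L‖ ≤ M →
      ‖(ContinuousLinearMap.id ℝ (ℝ × ℝ)).prod L‖ ≤ B := by
    intro L hL
    refine ContinuousLinearMap.opNorm_le_bound _ (by linarith) fun v => ?_
    rw [ContinuousLinearMap.prod_apply, Prod.norm_def]
    refine max_le ?_ ?_
    · simp only [ContinuousLinearMap.id_apply]
      nlinarith [norm_nonneg v]
    · refine (L.le_opNorm v).trans ?_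
      exact mul_le_mul_of_nonneg_right (hL.trans hBM) (norm_nonneg v)
  refine ⟨(hcomp m hm ht).differentiableAt, ?_, ?_, ?_, ?_, ?_⟩
  · rw [hGq]
    exact (hb0 _ (hqt _ ht)).trans hBB
  · rw [(hcomp m hm ht).fderiv]
    refine (ContinuousLinearMap.opNorm_comp_le _ _).trans ?_
    exact mul_le_mul (hb1 _ (hqt _ ht)) (hP _ hdM) (norm_nonneg _) (by linarith)
  · have h3 := hb3 _ (hqt _ ht)
    have h4 := hpos q (hKO hq) (m q)
    rw [Real.norm_of_nonneg h4.le] at h3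
    show 1 ≤ B * B * (1 / NN (q, m q))
    rw [mul_one_div, le_div_iff₀ h4, one_mul]
    exact h3.trans hBB
  · rw [hGq, hGq]
    refine hlipG.trans ?_
    exact mul_le_mul_of_nonneg_right hBB (abs_nonneg _)
  · rw [(hcomp m hm ht).fderiv, (hcomp m' hm' ht').fderiv]
    have e1 : (fderiv ℝ G (q, m q)).comp
          ((ContinuousLinearMap.id ℝ (ℝ × ℝ)).prod (fderiv ℝ m q)) -
        (fderiv ℝ G (q, m' q)).comp
          ((ContinuousLinearMap.id ℝ (ℝ × ℝ)).prod (fderiv ℝ m' q)) =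
        (fderiv ℝ G (q, m q) - fderiv ℝ G (q, m' q)).comp
          ((ContinuousLinearMap.id ℝ (ℝ × ℝ)).prod (fderiv ℝ m q)) +
        (fderiv ℝ G (q, m' q)).comp
          ((0 : (ℝ × ℝ) →L[ℝ] (ℝ × ℝ)).prod (fderiv ℝ m q - fderiv ℝ m' q)) := by
      refine ContinuousLinearMap.ext fun v => ?_
      have h5 : ((0 : ℝ × ℝ), fderiv ℝ m q v - fderiv ℝ m' q v) =
          (v, fderiv ℝ m q v) - (v, fderiv ℝ m' q v) := by
        simp
      show fderiv ℝ G (q, m q) (v, fderiv ℝ m q v) - fderiv ℝ G (q, m' q) (v, fderiv ℝ m' q v) =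
        (fderiv ℝ G (q, m q) (v, fderiv ℝ m q v) - fderiv ℝ G (q, m' q) (v, fderiv ℝ m q v)) +
          fderiv ℝ G (q, m' q) ((0 : ℝ × ℝ), fderiv ℝ m q v - fderiv ℝ m' q v)
      rw [h5, map_sub]
      abel
    rw [e1]
    refine (norm_add_le _ _).trans ?_
    have h5 : ‖(fderiv ℝ G (q, m q) - fderiv ℝ G (q, m' q)).comp
          ((ContinuousLinearMap.id ℝ (ℝ × ℝ)).prod (fderiv ℝ m q))‖ ≤ B * |m q - m' q| * B :=
      (ContinuousLinearMap.opNorm_comp_le _ _).trans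
        (mul_le_mul hlipD (hP _ hdM) (norm_nonneg _) (by positivity))
    have h6 : ‖(0 : (ℝ × ℝ) →L[ℝ] (ℝ × ℝ)).prod (fderiv ℝ m q - fderiv ℝ m' q)‖ ≤
        ‖fderiv ℝ m q - fderiv ℝ m' q‖ := by
      refine ContinuousLinearMap.opNorm_le_bound _ (norm_nonneg _) fun v => ?_
      rw [ContinuousLinearMap.prod_apply, Prod.norm_def]
      refine max_le ?_ ((fderiv ℝ m q - fderiv ℝ m' q).le_opNorm v)
      simp only [zero_apply, norm_zero]
      positivity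
    have h7 : ‖(fderiv ℝ G (q, m' q)).comp
          ((0 : (ℝ × ℝ) →L[ℝ] (ℝ × ℝ)).prod (fderiv ℝ m q - fderiv ℝ m' q))‖ ≤
        B * ‖fderiv ℝ m q - fderiv ℝ m' q‖ :=
      (ContinuousLinearMap.opNorm_comp_le _ _).trans
        (mul_le_mul (hb1 _ (hqt _ ht')) h6 (norm_nonneg _) (by linarith))
    have h8 : B * ‖fderiv ℝ m q - fderiv ℝ m' q‖ ≤ B * B * ‖fderiv ℝ m q - fderiv ℝ m' q‖ :=
      mul_le_mul_of_nonneg_right hBB (norm_nonneg _)
    calc _ ≤ B * |m q - m' q| * B + B * ‖fderiv ℝ m q - fderiv ℝ m' q‖ := add_le_add h5 h7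
      _ ≤ B * B * |m q - m' q| + B * B * ‖fderiv ℝ m q - fderiv ℝ m' q‖ := by
          have : B * |m q - m' q| * B = B * B * |m q - m' q| := by ring
          linarith
      _ = _ := by ring

end TM
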